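import Pool.Agent.H55.APE.Start

/-!
# H55-APE-BASE: the end of AP (trivial group)

`br_hom`: for a cocycle `b` the bracket `x ↦ ⟨b⟩(s, x)` is a homomorphism on the centralizer of `s`. `csum`: the character sum is `0` or the order of the centralizer. `vg_triv`: the weights for the trivial group are `0` or `1`.
-/

set_option autoImplicit false
set_option linter.dupNamespace false

open scoped NumberField
open IsDedekindDomain Filter Topology
open scoped Classical

noncomputable section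

namespace H55.APE

open H63.MA H38.ML H38.BB H38.BG H57.PC H57.BRA H77.PC3 H77.WD Pool.Agent.H19.NF
  Pool.Agent.H19.AB H86.AP H35.CF

section grp

variable {P M : Type} [Group P] [AddCommGroup M]

theorem br_hom {b : P → P → M} (hb : ∀ x y z, d2 b x y z = 0) {s x y : P} (hx : s * x = x * s)
    (hy : s * y = y * s) : br b s (x * y) = br b s x + br b s y := by
  have h1 : b s (x * y) = b s x + b (s * x) y - b x y := by
    have h := hb s x y
    unfold d2 at h
    have h' : b s (x * y) - (b s x + b (s * x) y - b x y) =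
        b x y - b (s * x) y + b s (x * y) - b s x := by abel
    rw [← sub_eq_zero, h', h]
  have h2 : b (x * y) s = b y s + b x (y * s) - b x y := by
    have h := hb x y s
    unfold d2 at h
    have h' : b (x * y) s - (b y s + b x (y * s) - b x y) =
        -(b y s - b (x * y) s + b x (y * s) - b x y) := by abel
    rw [← sub_eq_zero, h', h, neg_zero]
  have h3 : b (x * s) y - b x (s * y) = b s y - b x s := by
    have h := hb x s y
    unfold d2 at h
    have h' : b (x * s) y - b x (s * y) - (b s y - b x s) =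
        -(b s y - b (x * s) y + b x (s * y) - b x s) := by abel
    rw [← sub_eq_zero, h', h, neg_zero]
  unfold br
  rw [h1, h2, hx, ← hy]
  have h4 : b s x + b (x * s) y - b x y - (b y s + b x (s * y) - b x y) =
      b s x - b y s + (b (x * s) y - b x (s * y)) := by abel
  rw [h4, h3]
  abel

theorem br_cj {b : P → P → M} (hb : ∀ x y z, d2 b x y z = 0) (g : P) {s x : P}
    (h : s * x = x * s) : br b (g * s * g⁻¹) (g * x * g⁻¹) = br b s x := by
  have h1 := br_conj b g h
  have h2 : br (hc (d2 b) g) s x = 0 := by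
    unfold br hc
    simp only [hb]
    abel
  rw [h2] at h1
  exact sub_eq_zero.1 h1

variable [Fintype P] (ψ : AddChar M ℂ)

/-- the character sum -/
def cs (b : P → P → M) (s : P) : ℂ := ∑ x : P, WC s x * ψ (-br b s x)

theorem csum {b : P → P → M} (hb : ∀ x y z, d2 b x y z = 0) (s : P) :
    cs ψ b s = 0 ∨ cs ψ b s = ((Finset.univ.filter fun x : P => s * x = x * s).card : ℂ) := by
  have h0 : cs ψ b s = ∑ x ∈ Finset.univ.filter (fun x : P => s * x = x * s), ψ (-br b s x) := by
    unfold cs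
    rw [Finset.sum_filter]
    refine Finset.sum_congr rfl fun x _ => ?_
    unfold WC
    by_cases h : s * x = x * s
    · rw [if_pos h, if_pos h, one_mul]
    · rw [if_neg h, if_neg h, zero_mul]
  by_cases hall : ∀ x, s * x = x * s → ψ (-br b s x) = 1
  · right
    rw [h0, Finset.sum_congr rfl fun x hx => hall x (Finset.mem_filter.1 hx).2, Finset.sum_const,
      nsmul_eq_mul, mul_one]
  · left
    push Not at hall
    obtain ⟨y, hy, hy1⟩ := hall
    have h1 : ψ (-br b s y) * cs ψ b s = cs ψ b s := by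
      rw [h0, Finset.mul_sum]
      refine Finset.sum_nbij' (fun x => y * x) (fun x => y⁻¹ * x) ?_ ?_ ?_ ?_ ?_
      · intro x hx
        rw [Finset.mem_filter] at hx ⊢
        refine ⟨Finset.mem_univ _, ?_⟩
        rw [← mul_assoc, hy, mul_assoc, hx.2, mul_assoc]
      · intro x hx
        rw [Finset.mem_filter] at hx ⊢
        refine ⟨Finset.mem_univ _, ?_⟩
        have h2 : s * y⁻¹ = y⁻¹ * s := by
          rw [mul_inv_eq_iff_eq_mul, mul_assoc, eq_inv_mul_iff_mul_eq]
          exact hy.symm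
        rw [← mul_assoc, h2, mul_assoc, hx.2, mul_assoc]
      · intro x _
        rw [inv_mul_cancel_left]
      · intro x _
        rw [mul_inv_cancel_left]
      · intro x hx
        rw [Finset.mem_filter] at hx
        rw [br_hom hb hy hx.2, neg_add, AddChar.map_add_eq_mul]
    have h2 : (ψ (-br b s y) - 1) * cs ψ b s = 0 := by
      rw [sub_mul, h1, one_mul, sub_self]
    rcases mul_eq_zero.1 h2 with h | h
    · exact absurd (sub_eq_zero.1 h) hy1
    · exact h

theorem cs_conj {b : P → P → M} (hb : ∀ x y z, d2 b x y z = 0) (g s : P) :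
    cs ψ b (g * s * g⁻¹) = cs ψ b s := by
  unfold cs
  refine (Fintype.sum_equiv (MulAut.conj g).toEquiv _ _ fun x => ?_).symm
  show WC s x * ψ (-br b s x) = WC (g * s * g⁻¹) (g * x * g⁻¹) *
    ψ (-br b (g * s * g⁻¹) (g * x * g⁻¹))
  unfold WC
  by_cases h : s * x = x * s
  · have h' : g * s * g⁻¹ * (g * x * g⁻¹) = g * x * g⁻¹ * (g * s * g⁻¹) := by
      have e : ∀ u v : P, g * u * g⁻¹ * (g * v * g⁻¹) = g * (u * v) * g⁻¹ := fun u v => by group
      rw [e, e, h]
    rw [if_pos h, if_pos h', br_cj hb g h]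
  · have h' : ¬ g * s * g⁻¹ * (g * x * g⁻¹) = g * x * g⁻¹ * (g * s * g⁻¹) := by
      intro h'
      apply h
      have e : ∀ u v : P, g * u * g⁻¹ * (g * v * g⁻¹) = g * (u * v) * g⁻¹ := fun u v => by group
      rw [e, e, mul_left_inj, mul_right_inj] at h'
      exact h'
    rw [if_neg h, if_neg h', zero_mul, zero_mul]

/-- the sum over a conjugacy class -/
theorem class_sum {b : P → P → M} (hb : ∀ x y z, d2 b x y z = 0) (g : P) :
    ((Finset.univ.filter fun x : P => g * x = x * g).card : ℂ) *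
      ∑ σ : P, (if IsConj σ g then cs ψ b σ else 0) = (Fintype.card P : ℂ) * cs ψ b g := by
  have hfib : ∀ σ : P, IsConj σ g →
      (Finset.univ.filter fun h : P => h * g * h⁻¹ = σ).card =
        (Finset.univ.filter fun x : P => g * x = x * g).card := by
    intro σ hσ
    obtain ⟨k, hk⟩ := isConj_iff.1 hσ.symm
    refine Finset.card_nbij' (fun h => k⁻¹ * h) (fun x => k * x) ?_ ?_ ?_ ?_
    · intro h hh
      rw [Finset.mem_coe, Finset.mem_filter] at hh ⊢
      refine ⟨Finset.mem_univ _, ?_⟩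
      have h1 := hh.2
      rw [← hk] at h1
      have h2 : h * g = k * g * k⁻¹ * h := mul_inv_eq_iff_eq_mul.1 h1
      rw [mul_assoc k⁻¹ h g, h2]
      group
    · intro x hx
      rw [Finset.mem_coe, Finset.mem_filter] at hx ⊢
      refine ⟨Finset.mem_univ _, ?_⟩
      rw [mul_inv_rev, ← hk, mul_assoc k x g, ← hx.2]
      group
    · intro h _
      exact mul_inv_cancel_left k h
    · intro x _
      exact inv_mul_cancel_left k x
  have h1 : ∑ h : P, cs ψ b (h * g * h⁻¹) = (Fintype.card P : ℂ) * cs ψ b g := by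
    rw [Finset.sum_congr rfl fun h _ => cs_conj ψ hb h g, Finset.sum_const, Finset.card_univ,
      nsmul_eq_mul]
  have h2 : ∑ h : P, cs ψ b (h * g * h⁻¹) =
      ∑ σ : P, ∑ h ∈ Finset.univ.filter (fun h : P => h * g * h⁻¹ = σ), cs ψ b (h * g * h⁻¹) :=
    (Finset.sum_fiberwise Finset.univ (fun h : P => h * g * h⁻¹)
      fun h => cs ψ b (h * g * h⁻¹)).symm
  rw [← h1, h2, Finset.mul_sum]
  refine Finset.sum_congr rfl fun σ _ => ?_
  by_cases hσ : IsConj σ g
  · rw [if_pos hσ, ← hfib σ hσ]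
    rw [Finset.sum_congr rfl (g := fun _ => cs ψ b σ) fun h hh => by
      rw [(Finset.mem_filter.1 hh).2], Finset.sum_const, nsmul_eq_mul]
  · rw [if_neg hσ, mul_zero]
    symm
    apply Finset.sum_eq_zero
    intro h hh
    exfalso
    apply hσ
    rw [← (Finset.mem_filter.1 hh).2]
    exact (isConj_iff.2 ⟨h, rfl⟩ : IsConj g (h * g * h⁻¹)).symm

end grp

theorem vg_triv {p m : ℕ} {P : Type} [Group P] [Fintype P] [NeZero (p ^ m)]
    {G : Type} [Group G] [Subsingleton G] (q : P →* G) (b : P → P → ZMod (p ^ m))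
    (hb : ∀ x y z, d2 b x y z = 0) (g : P) (s x : G) :
    (Vg (m := m) q b g s x = 0 ∨ Vg (m := m) q b g s x = 1) ∧
      (b = 0 → Vg (m := m) q b g s x = 1) := by
  have hker : Nat.card q.ker = Fintype.card P := by
    have h1 : q.ker = ⊤ := by
      rw [eq_top_iff]
      intro y _
      exact MonoidHom.mem_ker.2 (Subsingleton.elim _ _)
    rw [h1, Subgroup.card_top, Nat.card_eq_fintype_card]
  have hVV : ∀ σ : P, VV (ch (p ^ m)) q b WC σ x = cs (ch (p ^ m)) b σ := by
    intro σ
    unfold VV cs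
    refine Finset.sum_congr rfl fun y _ => ?_
    rw [if_pos (Subsingleton.elim _ _)]
  have hV : Vg (m := m) q b g s x = (Fintype.card P : ℂ)⁻¹ *
      ∑ σ : P, (if IsConj σ g then cs (ch (p ^ m)) b σ else 0) := by
    unfold Vg
    rw [hker]
    congr 1
    refine Finset.sum_congr rfl fun σ _ => ?_
    rw [hVV]
    by_cases h : IsConj σ g
    · rw [if_pos ⟨h, Subsingleton.elim _ _⟩, if_pos h]
    · rw [if_neg fun h' => h h'.1, if_neg h]
  have hP0 : (Fintype.card P : ℂ) ≠ 0 := Nat.cast_ne_zero.2 Fintype.card_ne_zero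
  obtain ⟨n, hn⟩ : ∃ n : ℕ, n = (Finset.univ.filter fun x : P => g * x = x * g).card :=
    ⟨_, rfl⟩
  have hn0 : (n : ℂ) ≠ 0 := by
    rw [hn, Nat.cast_ne_zero]
    apply Finset.card_ne_zero_of_mem (a := 1)
    rw [Finset.mem_filter]
    exact ⟨Finset.mem_univ _, by rw [mul_one, one_mul]⟩
  have hcl := class_sum (ch (p ^ m)) hb g
  rw [← hn] at hcl
  have hV2 : Vg (m := m) q b g s x = cs (ch (p ^ m)) b g / n := by
    rw [hV, eq_div_iff hn0, mul_assoc, mul_comm _ (n : ℂ), hcl, inv_mul_cancel_left₀ hP0]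
  constructor
  · rcases csum (ch (p ^ m)) hb g with h | h
    · left
      rw [hV2, h, zero_div]
    · right
      rw [hV2, h, ← hn, div_self hn0]
  · intro hb0
    have h : cs (ch (p ^ m)) b g = n := by
      rw [hn]
      unfold cs
      rw [Finset.card_filter, Nat.cast_sum]
      refine Finset.sum_congr rfl fun y _ => ?_
      have h3 : br b g y = 0 := by
        rw [hb0]
        simp [br]
      rw [h3, neg_zero, AddChar.map_zero_eq_one, mul_one]
      unfold WC
      split_ifs <;> simp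
    rw [hV2, h, div_self hn0]

variable {K : Type} [Field K] [NumberField K] {Ω : Type} [Field Ω] [Algebra K Ω]
  {p m N : ℕ} {ζ : K}

theorem base' [IsAlgClosure K Ω] [NeZero N] (hp : p.Prime) (hζ : IsPrimitiveRoot ζ p)
    [NeZero (p ^ m)] (D : RD K p ζ) (L : LDs D.toRD0 Ω) (Q : DP K Ω) (Fr : FR L)
    {lam : Pl K → ZMod p} (hone : ∀ v, D.Gd v → lam v = 1)
    (I : (Gal(Ω/K) → Gal(Ω/K) → Gal(Ω/K) → ZMod (p ^ m)) →+ AddCircle (1 : ℝ))
    {P : Type} [Group P] [Fintype P] (_hP : ∀ x : P, x ^ p = 1) (c : CL p N P)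
    (φ₁ : Gal(Ω/K) →* P) {G : Type} [Group G] [Fintype G] [Subsingleton G] (q : P →* G)
    (b : P → P → ZMod (p ^ m)) (w : G → G → G → ZMod (p ^ m)) {k : ℕ} (hbw : Sta p m k q b w) :
    ∃ r : ℝ, 0 ≤ r ∧ r ≤ 1 ∧ (b = 0 → r = 1) ∧ ∀ (M : ℕ) (T₀ Y : ℝ), 1 ≤ M →
      SS c (BB L Q Fr lam I φ₁ q b w) D.toRD0 ∅ (fun _ => 1) M T₀ Y =
        (r : ℂ) * (RC D.toRD0 N M T₀ Y ∅).card ∧
      ∀ (E : Finset (Pl K)) (e : Pl K → P),
        ‖SS c (BB L Q Fr lam I φ₁ q b w) D.toRD0 E e M T₀ Y‖ ≤ (RC D.toRD0 N M T₀ Y E).card := by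
  have hb : ∀ x y z, d2 b x y z = 0 := by
    intro x y z
    rw [hbw.cob, Subsingleton.elim (q x) 1, hbw.nw.l]
  have hbl : ∀ (l : ℕ) x y z, d2 (fun x y => l • b x y) x y z = 0 := by
    intro l x y z
    have h1 : d2 (fun x y => l • b x y) x y z = l • d2 b x y z := by
      unfold d2
      rw [smul_sub, smul_add, smul_sub]
    rw [h1, hb, smul_zero]
  have hG : ∀ x : G, x ^ p = 1 := fun x => Subsingleton.elim _ _
  have hp1 : Fact (1 < p) := ⟨hp.one_lt⟩
  have hBB : ∀ (T : Finset (Pl K)) (γ : Pl K → P), BB L Q Fr lam I φ₁ q b w T γ =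
      ∏ v ∈ T, Vg (m := m) q (fun x y => (lam v).val • b x y) (γ v) 1 1 := by
    intro T γ
    have hX : XS L Q (q.comp φ₁) T = {q.comp φ₁} := by
      ext φ
      rw [mem_XS hp hζ L Q hG, Finset.mem_singleton]
      constructor
      · intro _
        exact MonoidHom.ext fun σ => Subsingleton.elim _ _
      · rintro rfl
        refine ⟨⟨⟨⊥, inferInstance, fun σ _ => ?_⟩, fun v _ => ⟨Subsingleton.elim _ _, fun _ =>
          Subsingleton.elim _ _⟩⟩, fun v _ σ _ => rfl⟩
        exact MonoidHom.mem_ker.2 (Subsingleton.elim _ _)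
    unfold H86.AP.BB
    rw [hX, Finset.sum_singleton]
    have hJ : Jf I w (q.comp φ₁) (q.comp φ₁) = 0 := by
      unfold Jf
      have h1 : (fun a b c : Gal(Ω/K) => w ((q.comp φ₁) a) ((q.comp φ₁) b) ((q.comp φ₁) c) -
          w ((q.comp φ₁) a) ((q.comp φ₁) b) ((q.comp φ₁) c)) = 0 := by
        funext a b c
        simp
      rw [h1, map_zero]
    rw [hJ, AddChar.map_zero_eq_one, one_mul]
    refine Finset.prod_congr rfl fun v _ => ?_
    rw [Subsingleton.elim ((q.comp φ₁) (L.t v)) 1, Subsingleton.elim ((q.comp φ₁) (Fr.F v)) 1]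
  have hnorm : ∀ (T : Finset (Pl K)) (γ : Pl K → P), ‖BB L Q Fr lam I φ₁ q b w T γ‖ ≤ 1 := by
    intro T γ
    rw [hBB, norm_prod]
    refine Finset.prod_le_one (fun v _ => norm_nonneg _) fun v _ => ?_
    rcases (vg_triv q _ (hbl (lam v).val) (γ v) 1 1).1 with h | h <;> rw [h] <;> simp
  have hE : ∀ (M : ℕ) (T₀ Y : ℝ) (E : Finset (Pl K)) (e : Pl K → P),
      ‖SS c (BB L Q Fr lam I φ₁ q b w) D.toRD0 E e M T₀ Y‖ ≤ (RC D.toRD0 N M T₀ Y E).card := by
    intro M T₀ Y E e
    unfold SS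
    refine (norm_sum_le _ _).trans ((Finset.sum_le_sum fun f _ => hnorm _ _).trans ?_)
    rw [Finset.sum_const, nsmul_eq_mul, mul_one]
  have hB0 : ∀ (Y : ℝ) (f : Pl K → Option (Fin N)),
      BB L Q Fr lam I φ₁ q b w (sp (ZZ D.toRD0 Y \ ∅) f ∪ ∅) (gl c ∅ (fun _ => 1) f) =
        ∏ v ∈ sp (ZZ D.toRD0 Y \ ∅) f, Vg (m := m) q b (c.g (cf f v)) 1 1 := by
    intro Y f
    rw [hBB, Finset.union_empty]
    refine Finset.prod_congr rfl fun v hv => ?_
    rw [mem_sp, Finset.mem_sdiff, mem_ZZ] at hv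
    have h1 : (fun x y => (lam v).val • b x y) = b := by
      rw [hone v hv.1.1.2, ZMod.val_one]
      funext x y
      rw [one_smul]
    rw [h1]
    unfold gl
    rw [if_neg (Finset.notMem_empty v)]
  by_cases hall : ∀ j, Vg (m := m) q b (c.g j) 1 1 = 1
  · refine ⟨1, zero_le_one, le_rfl, fun _ => rfl, fun M T₀ Y hM => ⟨?_, hE M T₀ Y⟩⟩
    unfold SS
    rw [Finset.sum_congr rfl (g := fun _ => (1 : ℂ)) fun f _ => by
      rw [hB0, Finset.prod_congr rfl fun v _ => hall _, Finset.prod_const_one], Finset.sum_const,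
      nsmul_eq_mul, mul_one, Complex.ofReal_one, one_mul]
  · push Not at hall
    obtain ⟨j, hj⟩ := hall
    have hj0 : Vg (m := m) q b (c.g j) 1 1 = 0 :=
      ((vg_triv q b hb (c.g j) 1 1).1).resolve_right hj
    refine ⟨0, le_rfl, zero_le_one, fun h => absurd ((vg_triv q b hb (c.g j) 1 1).2 h) hj,
      fun M T₀ Y hM => ⟨?_, hE M T₀ Y⟩⟩
    rw [Complex.ofReal_zero, zero_mul]
    unfold SS
    refine Finset.sum_eq_zero fun f hf => ?_
    rw [hB0]
    unfold H86.AP.RC at hf
    rw [Finset.mem_filter] at hf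
    obtain ⟨v, hv⟩ := Finset.card_pos.1 (lt_of_lt_of_le hM (hf.2.1 j))
    rw [Finset.mem_filter, mem_pl] at hv
    apply Finset.prod_eq_zero (i := v)
    · rw [mem_sp]
      refine ⟨hv.1.1, ?_⟩
      rw [hv.1.2]
      exact Option.some_ne_none j
    · unfold cf
      rw [hv.1.2, Option.getD_some]
      exact hj0

end H55.APE
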