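import Pool.Agent.H55.APE.Smo
import Pool.Agent.H86.AP.Df

/-!
# H55-APE-RCLIM: the number of the rich configurations

`ac_card`: all configurations of norm at most `Y` are counted by `UN`. `nr_lim`: the configurations with at most `M` large primes in a class are negligible. `rc_lim'`, `rc_sub'`: the statements of
H86/AP/End.
-/

set_option autoImplicit false
set_option linter.dupNamespace false

open scoped NumberField
open IsDedekindDomain Filter Topology
open scoped Classical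

noncomputable section

namespace H55.APE

open H63.MA H86.AP H35.CF

variable {K : Type} [Field K] [NumberField K] {p : ℕ} {ζ : K}

theorem mem_ZZ {D : RD0 K p ζ} {Y : ℝ} {v : Pl K} : v ∈ ZZ D Y ↔ (nm v : ℝ) ≤ Y ∧ D.Gd v := by
  unfold ZZ
  rw [Finset.mem_filter, H57.AN.mem_PB]

theorem pl_dj {N : ℕ} (Z : Finset (Pl K)) (f : Pl K → Option (Fin N)) : Dj (pl Z f) := by
  intro i j hij
  rw [Finset.disjoint_left]
  intro v hv hv'
  rw [mem_pl] at hv hv'
  exact hij (Option.some.inj (hv.2.symm.trans hv'.2))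

theorem nr_sp {N : ℕ} (Z : Finset (Pl K)) (f : Pl K → Option (Fin N)) :
    nr (sp Z f) = ∏ i, nr (pl Z f i) := by
  have h1 : sp Z f = Finset.univ.biUnion (pl Z f) := by
    ext v
    rw [mem_sp, Finset.mem_biUnion]
    constructor
    · rintro ⟨h1, h2⟩
      obtain ⟨i, hi⟩ := Option.ne_none_iff_exists'.1 h2
      exact ⟨i, Finset.mem_univ _, mem_pl.2 ⟨h1, hi⟩⟩
    · rintro ⟨i, -, hi⟩
      rw [mem_pl] at hi
      refine ⟨hi.1, ?_⟩
      rw [hi.2]
      exact Option.some_ne_none i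
  rw [h1]
  unfold nr
  rw [Finset.prod_biUnion fun i _ j _ hij => pl_dj Z f i j hij]

/-- all configurations -/
def AC (D : RD0 K p ζ) (N : ℕ) (Y : ℝ) : Finset (Pl K → Option (Fin N)) :=
  (Cf (ZZ D Y) (Fin N)).filter fun f => nr (sp (ZZ D Y) f) ≤ Y

theorem pl_inj {N : ℕ} {Z : Finset (Pl K)} {f g : Pl K → Option (Fin N)} (hf : f ∈ Cf Z (Fin N))
    (hg : g ∈ Cf Z (Fin N)) (h : pl Z f = pl Z g) : f = g := by
  rw [mem_cf] at hf hg
  funext v
  by_cases hv : v ∈ Z
  · have key : ∀ i, f v = some i ↔ g v = some i := by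
      intro i
      have h1 : v ∈ pl Z f i ↔ v ∈ pl Z g i := by rw [h]
      rw [mem_pl, mem_pl] at h1
      tauto
    cases hfv : f v with
    | some i => exact ((key i).1 hfv).symm
    | none =>
      cases hgv : g v with
      | none => rfl
      | some i =>
        have := (key i).2 hgv
        rw [hfv] at this
        exact this
  · rw [hf v hv, hg v hv]

theorem pl_gf {D : RD0 K p ζ} {N : ℕ} {Y : ℝ} {f : Pl K → Option (Fin N)} (hf : f ∈ AC D N Y) :
    (∀ i, pl (ZZ D Y) f i ∈ GF D Y) ∧ ∏ i, nr (pl (ZZ D Y) f i) ≤ Y := by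
  rw [AC, Finset.mem_filter, nr_sp] at hf
  refine ⟨fun i => ?_, hf.2⟩
  rw [atupa_mem_GF]
  refine ⟨(atupa_le_prod (pl (ZZ D Y) f) i).trans hf.2, fun v hv => ?_⟩
  rw [mem_pl, mem_ZZ] at hv
  exact hv.1.2

theorem ac_card (D : RD0 K p ζ) (N : ℕ) (Y : ℝ) : ((AC D N Y).card : ℝ) = UN D N ∅ Y := by
  unfold UN
  congr 1
  refine Finset.card_bij (fun f _ => pl (ZZ D Y) f) ?_ ?_ ?_
  · intro f hf
    rw [Finset.mem_filter, Fintype.mem_piFinset]
    exact ⟨(pl_gf hf).1, pl_dj _ f, fun i => Finset.disjoint_empty_right _, (pl_gf hf).2⟩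
  · intro f hf g hg h
    rw [AC, Finset.mem_filter] at hf hg
    exact pl_inj hf.1 hg.1 h
  · intro n hn
    rw [bud_mem_UT] at hn
    obtain ⟨h1, h2, -, h4⟩ := hn
    have hZ : ∀ i, ∀ v ∈ n i, v ∈ ZZ D Y := by
      intro i v hv
      rw [mem_ZZ]
      exact ⟨(buf_nm_le hv).trans ((atupa_le_prod n i).trans h4), h1 i v hv⟩
    obtain ⟨f, hf⟩ : ∃ f : Pl K → Option (Fin N), f = fun v =>
      if h : ∃ i, v ∈ n i then some h.choose else none := ⟨_, rfl⟩
    have hfi : ∀ v i, f v = some i ↔ v ∈ n i := by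
      intro v i
      rw [hf]
      dsimp only
      constructor
      · intro h
        by_cases hv : ∃ i, v ∈ n i
        · rw [dif_pos hv] at h
          have := Option.some.inj h
          rw [← this]
          exact hv.choose_spec
        · rw [dif_neg hv] at h
          exact absurd h.symm (Option.some_ne_none i)
      · intro h
        have hv : ∃ i, v ∈ n i := ⟨i, h⟩
        rw [dif_pos hv]
        congr 1
        by_contra hne
        exact Finset.disjoint_left.1 (h2 _ _ hne) hv.choose_spec h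
    have hgf : pl (ZZ D Y) f = n := by
      funext i
      ext v
      rw [mem_pl, hfi]
      exact ⟨fun h => h.2, fun h => ⟨hZ i v h, h⟩⟩
    refine ⟨f, ?_, hgf⟩
    rw [AC, Finset.mem_filter, mem_cf]
    refine ⟨fun v hv => ?_, ?_⟩
    · cases hfv : f v with
      | none => rfl
      | some i => exact absurd (hZ i v ((hfi v i).1 hfv)) hv
    · rw [nr_sp, hgf]
      exact h4

/-- the configurations with at most `M` large primes in the class `j` -/
def NR (D : RD0 K p ζ) (N : ℕ) (j : Fin N) (M : ℕ) (T Y : ℝ) : Finset (Pl K → Option (Fin N)) :=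
  (AC D N Y).filter fun f => ((pl (ZZ D Y) f j).filter fun v => T < (nm v : ℝ)).card ≤ M

theorem rc_bounds (D : RD0 K p ζ) (N M : ℕ) (T Y : ℝ) :
    ((RC D N M T Y ∅).card : ℝ) ≤ UN D N ∅ Y ∧
      UN D N ∅ Y - ∑ j, ((NR D N j M T Y).card : ℝ) ≤ ((RC D N M T Y ∅).card : ℝ) := by
  have hRC : RC D N M T Y ∅ = (AC D N Y).filter fun f => Rich M T (ZZ D Y) f := by
    ext f
    rw [H86.AP.RC, AC, Finset.sdiff_empty, Finset.mem_filter, Finset.mem_filter, Finset.mem_filter]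
    tauto
  have hsum : ((AC D N Y).filter fun f => Rich M T (ZZ D Y) f).card +
      ((AC D N Y).filter fun f => ¬ Rich M T (ZZ D Y) f).card = (AC D N Y).card :=
    Finset.card_filter_add_card_filter_not _
  have hsumR : (((AC D N Y).filter fun f => Rich M T (ZZ D Y) f).card : ℝ) +
      (((AC D N Y).filter fun f => ¬ Rich M T (ZZ D Y) f).card : ℝ) = UN D N ∅ Y := by
    rw [← ac_card]
    exact_mod_cast hsum
  have hno : (((AC D N Y).filter fun f => ¬ Rich M T (ZZ D Y) f).card : ℝ) ≤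
      ∑ j, ((NR D N j M T Y).card : ℝ) := by
    have h1 : ((AC D N Y).filter fun f => ¬ Rich M T (ZZ D Y) f) ⊆
        Finset.univ.biUnion fun j => NR D N j M T Y := by
      intro f hf
      rw [Finset.mem_filter] at hf
      obtain ⟨h1, h3⟩ := hf
      unfold Rich at h3
      push Not at h3
      obtain ⟨j, hj⟩ := h3
      rw [Finset.mem_biUnion]
      exact ⟨j, Finset.mem_univ _, Finset.mem_filter.2 ⟨h1, hj.le⟩⟩
    have h2 := (Finset.card_le_card h1).trans Finset.card_biUnion_le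
    exact_mod_cast h2
  rw [hRC]
  have h0 : (0 : ℝ) ≤ (((AC D N Y).filter fun f => ¬ Rich M T (ZZ D Y) f).card : ℝ) :=
    Nat.cast_nonneg _
  constructor <;> linarith

theorem nr_two (D : RD0 K p ζ) (N : ℕ) (hN : 2 ≤ N) (j : Fin N) (M : ℕ) (ε : ℝ) (hε : 0 < ε)
    (hε1 : ε < 1) : ∃ C : ℝ, ∀ᶠ Y : ℝ in atTop,
      ((NR D N j M (Real.exp (Real.log Y ^ ε)) Y).card : ℝ) / (Y * Real.log Y ^ (N - 1)) ≤
        C * Real.log Y ^ (-((1 - ε) / 2)) := by
  obtain ⟨C, hC, h⟩ := few_tup D N hN j M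
  obtain ⟨η, hη⟩ : ∃ η : ℝ, η = (1 - ε) / (2 * (M + 1)) := ⟨_, rfl⟩
  have hη0 : 0 < η := by
    rw [hη]
    have : 0 < 1 - ε := by linarith
    positivity
  refine ⟨C * 2 ^ (N - 2) * (C + 1 / η) ^ M, ?_⟩
  have hLε : Tendsto (fun Y : ℝ => Real.log Y ^ ε) atTop atTop :=
    (tendsto_rpow_atTop hε).comp Real.tendsto_log_atTop
  filter_upwards [eventually_ge_atTop 3, hLε.eventually_ge_atTop 2] with Y hY hT
  have hY0 : 0 < Y := by linarith
  have hL1 : 1 < Real.log Y := by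
    rw [Real.lt_log_iff_exp_lt hY0]
    have := Real.exp_one_lt_d9
    linarith
  have hT3 : 3 ≤ Real.exp (Real.log Y ^ ε) := by
    have h1 := Real.add_one_le_exp (Real.log Y ^ ε)
    linarith
  have h1 := h (Real.exp (Real.log Y ^ ε)) Y hT3 hY
  have h2 : (NR D N j M (Real.exp (Real.log Y ^ ε)) Y).card ≤
      (SmT D N j M (Real.exp (Real.log Y ^ ε)) Y).card := by
    apply Finset.card_le_card_of_injOn (pl (ZZ D Y))
    · intro f hf
      rw [Finset.mem_coe, NR, Finset.mem_filter] at hf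
      rw [Finset.mem_coe, SmT, Finset.mem_filter, Fintype.mem_piFinset]
      exact ⟨(pl_gf hf.1).1, (pl_gf hf.1).2, hf.2⟩
    · intro f hf g hg h
      rw [Finset.mem_coe, NR, Finset.mem_filter, AC, Finset.mem_filter] at hf hg
      exact pl_inj hf.1.1 hg.1.1 h
  have h3 : ((NR D N j M (Real.exp (Real.log Y ^ ε)) Y).card : ℝ) ≤
      ((SmT D N j M (Real.exp (Real.log Y ^ ε)) Y).card : ℝ) := by exact_mod_cast h2
  have h4 := h3.trans h1
  rw [Real.log_exp] at h4
  obtain ⟨L, hLd⟩ : ∃ L : ℝ, L = Real.log Y := ⟨_, rfl⟩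
  rw [← hLd] at hL1 h4 ⊢
  have hL0 : 0 < L := by linarith
  have hllY : 0 ≤ Real.log L := Real.log_nonneg hL1.le
  have h5 : C + Real.log L ≤ (C + 1 / η) * L ^ η := by
    have h6 := Real.log_le_rpow_div hL0.le hη0
    have h7 : 1 ≤ L ^ η := Real.one_le_rpow hL1.le hη0.le
    calc C + Real.log L ≤ C * L ^ η + L ^ η / η := by nlinarith
      _ = _ := by ring
  have h6 : (C + Real.log L) ^ M ≤ (C + 1 / η) ^ M * L ^ ((1 - ε) / 2) := by
    refine (pow_le_pow_left₀ (by linarith) h5 M).trans ?_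
    rw [mul_pow, ← Real.rpow_mul_natCast hL0.le]
    apply mul_le_mul_of_nonneg_left _ (by positivity)
    apply Real.rpow_le_rpow_of_exponent_le hL1.le
    rw [hη, div_mul_eq_mul_div, div_le_div_iff₀ (by positivity) (by norm_num)]
    have h8 : 0 < 1 - ε := by linarith
    have h9 : (0 : ℝ) ≤ M := Nat.cast_nonneg M
    nlinarith
  rw [div_le_iff₀ (by positivity)]
  refine h4.trans ?_
  obtain ⟨k, rfl⟩ : ∃ k, N = k + 2 := ⟨N - 2, by omega⟩
  have e1 : k + 2 - 2 = k := by omega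
  have e2 : k + 2 - 1 = k + 1 := by omega
  rw [e1, e2]
  have h7 : (1 + L) ^ k ≤ (2 * L) ^ k := pow_le_pow_left₀ (by linarith) (by linarith) k
  calc C * Y * (1 + L) ^ k * (L ^ ε * (C + Real.log L) ^ M)
      ≤ C * Y * (2 * L) ^ k * (L ^ ε * ((C + 1 / η) ^ M * L ^ ((1 - ε) / 2))) := by gcongr
    _ = C * 2 ^ k * (C + 1 / η) ^ M * (L ^ ε * L ^ ((1 - ε) / 2)) * (Y * L ^ k) := by
        rw [mul_pow]
        ring
    _ = C * 2 ^ k * (C + 1 / η) ^ M * (L ^ (-((1 - ε) / 2)) * L) * (Y * L ^ k) := by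
        congr 2
        rw [← Real.rpow_add hL0, ← Real.rpow_add_one hL0.ne']
        congr 1
        ring
    _ = _ := by ring

theorem nr_one (D : RD0 K p ζ) (j : Fin 1) (M : ℕ) (ε : ℝ) (hε : 0 < ε)
    (hε1 : ε < 1) : ∃ C : ℝ, ∀ᶠ Y : ℝ in atTop,
      ((NR D 1 j M (Real.exp (Real.log Y ^ ε)) Y).card : ℝ) / (Y * Real.log Y ^ (1 - 1)) ≤
        C * Real.log Y ^ (-((1 - ε) / 2)) := by
  obtain ⟨C, hC, h⟩ := cnt_pat K (Fin 1) (N := 1) id ∅ 1 zero_le_one M ((1 - ε) / 2)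
    (by linarith) (by linarith)
  refine ⟨C, ?_⟩
  have hLε : Tendsto (fun Y : ℝ => Real.log Y ^ ε) atTop atTop :=
    (tendsto_rpow_atTop hε).comp Real.tendsto_log_atTop
  filter_upwards [eventually_ge_atTop 3, hLε.eventually_ge_atTop 2] with Y hY hT
  have hY0 : 0 < Y := by linarith
  have hL1 : 1 < Real.log Y := by
    rw [Real.lt_log_iff_exp_lt hY0]
    have := Real.exp_one_lt_d9
    linarith
  have hT3 : 3 ≤ Real.exp (Real.log Y ^ ε) := by
    have h1 := Real.add_one_le_exp (Real.log Y ^ ε)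
    linarith
  have h1 := h (ZZ D Y) Y (Real.exp (Real.log Y ^ ε)) hY hT3 (fun _ _ => 1)
    (fun _ _ => ⟨zero_le_one, le_rfl⟩) (fun v _ i hi => absurd hi (Finset.notMem_empty i))
  have h3 : ((NR D 1 j M (Real.exp (Real.log Y ^ ε)) Y).card : ℝ) ≤ _ := le_trans (by
    rw [Finset.sum_congr rfl fun c _ => om_one (ZZ D Y) c, Finset.sum_const, nsmul_eq_mul,
      mul_one]
    refine Nat.cast_le.2 (Finset.card_le_card fun f hf => ?_)
    rw [NR, AC, Finset.mem_filter, Finset.mem_filter] at hf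
    rw [Finset.mem_filter]
    refine ⟨hf.1.1, hf.1.2, fun i _ => ?_⟩
    refine le_trans (Finset.card_le_card fun v hv => ?_) hf.2
    simp only [Finset.mem_filter] at hv
    obtain ⟨hv1, hv2, x, hx, -⟩ := hv
    rw [Finset.mem_filter, mem_pl]
    refine ⟨⟨hv1, ?_⟩, hv2⟩
    rw [hx, Subsingleton.elim x j]) h1
  rw [Real.log_exp, Finset.card_empty, Nat.cast_zero, Fintype.card_fin, Nat.cast_one, mul_one,
    mul_one] at h3
  obtain ⟨L, hLd⟩ : ∃ L : ℝ, L = Real.log Y := ⟨_, rfl⟩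
  rw [← hLd] at hL1 h3 ⊢
  have hL0 : 0 < L := by linarith
  rw [Nat.sub_self, pow_zero, mul_one, div_le_iff₀ hY0]
  refine h3.trans (le_of_eq ?_)
  rw [Real.rpow_one, mul_assoc, ← Real.rpow_add hL0]
  have e1 : (0 : ℝ) - 1 + (1 - ε) / 2 + ε = -((1 - ε) / 2) := by ring
  rw [e1]
  ring

theorem nr_lim (D : RD0 K p ζ) (N : ℕ) (j : Fin N) (M : ℕ) (ε : ℝ) (hε : 0 < ε) (hε1 : ε < 1) :
    Tendsto (fun Y : ℝ => ((NR D N j M (Real.exp (Real.log Y ^ ε)) Y).card : ℝ) /
      (Y * Real.log Y ^ (N - 1))) atTop (𝓝 0) := by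
  have hb : ∃ C : ℝ, ∀ᶠ Y : ℝ in atTop,
      ((NR D N j M (Real.exp (Real.log Y ^ ε)) Y).card : ℝ) / (Y * Real.log Y ^ (N - 1)) ≤
        C * Real.log Y ^ (-((1 - ε) / 2)) := by
    rcases Nat.lt_or_ge 1 N with h2 | h1
    · exact nr_two D N h2 j M ε hε hε1
    · have := j.2
      obtain rfl : N = 1 := by omega
      exact nr_one D j M ε hε hε1
  obtain ⟨C, hC⟩ := hb
  have hlim : Tendsto (fun Y : ℝ => C * Real.log Y ^ (-((1 - ε) / 2))) atTop (𝓝 0) := by
    have h1 : Tendsto (fun L : ℝ => L ^ (-((1 - ε) / 2))) atTop (𝓝 0) :=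
      tendsto_rpow_neg_atTop (by linarith)
    have h2 := (h1.comp Real.tendsto_log_atTop).const_mul C
    rw [mul_zero] at h2
    exact h2
  refine squeeze_zero' ?_ hC hlim
  filter_upwards [eventually_ge_atTop 1] with Y hY
  have := Real.log_nonneg hY
  positivity

theorem rc_lim' {N : ℕ} [NeZero N] (D : RD0 K p ζ) :
    ∃ u : ℝ, 0 < u ∧ ∀ (M : ℕ) (ε : ℝ), 0 < ε → ε < 1 →
      Tendsto (fun Y : ℝ => ((RC D N M (Real.exp (Real.log Y ^ ε)) Y ∅).card : ℝ) /
        (Y * Real.log Y ^ (N - 1))) atTop (𝓝 u) := by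
  have hN : 1 ≤ N := Nat.one_le_iff_ne_zero.2 (NeZero.ne N)
  obtain ⟨u, -, hu⟩ := un_lim D N hN ∅
  refine ⟨u, un_pos D N hN u hu, fun M ε hε hε1 => ?_⟩
  have hs : Tendsto (fun Y : ℝ => ∑ j, ((NR D N j M (Real.exp (Real.log Y ^ ε)) Y).card : ℝ) /
      (Y * Real.log Y ^ (N - 1))) atTop (𝓝 0) := by
    have := tendsto_finsetSum (Finset.univ : Finset (Fin N)) fun j _ => nr_lim D N j M ε hε hε1
    simpa using this
  have hlow : Tendsto (fun Y : ℝ => UN D N ∅ Y / (Y * Real.log Y ^ (N - 1)) -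
      ∑ j, ((NR D N j M (Real.exp (Real.log Y ^ ε)) Y).card : ℝ) /
      (Y * Real.log Y ^ (N - 1))) atTop (𝓝 u) := by
    have := hu.sub hs
    rwa [sub_zero] at this
  refine tendsto_of_tendsto_of_tendsto_of_le_of_le' hlow hu ?_ ?_
  · filter_upwards [eventually_ge_atTop 1] with Y hY
    have hL := Real.log_nonneg hY
    have h1 := (rc_bounds D N M (Real.exp (Real.log Y ^ ε)) Y).2
    rw [← Finset.sum_div, ← sub_div]
    exact div_le_div_of_nonneg_right h1 (by positivity)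
  · filter_upwards [eventually_ge_atTop 1] with Y hY
    have hL := Real.log_nonneg hY
    have h1 := (rc_bounds D N M (Real.exp (Real.log Y ^ ε)) Y).1
    exact div_le_div_of_nonneg_right h1 (by positivity)

theorem rc_sub' {N : ℕ} (D : RD0 K p ζ) (M : ℕ) (T₀ Y : ℝ) (E : Finset (Pl K)) :
    (RC D N M T₀ Y E).card ≤ (RC D N M T₀ Y ∅).card := by
  refine Finset.card_le_card fun f hf => ?_
  rw [H86.AP.RC, Finset.mem_filter, mem_cf] at hf
  obtain ⟨h1, h2, h3⟩ := hf
  rw [H86.AP.RC, Finset.mem_filter, mem_cf, Finset.sdiff_empty]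
  refine ⟨fun v hv => h1 v fun h => hv (Finset.mem_sdiff.1 h).1, fun j => ?_, ?_⟩
  · refine (h2 j).trans (Finset.card_le_card fun v hv => ?_)
    rw [Finset.mem_filter, mem_pl] at hv ⊢
    exact ⟨⟨(Finset.mem_sdiff.1 hv.1.1).1, hv.1.2⟩, hv.2⟩
  · refine le_trans (nr_mono fun v hv => ?_) h3
    rw [mem_sp] at hv ⊢
    refine ⟨?_, hv.2⟩
    by_contra h
    exact hv.2 (h1 v h)

end H55.APE
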