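import Pool.Agent.H55.APE.UnPos
import Pool.Agent.H35.CF.Cnt

/-!
# H55-APE-SMO: configurations with few large primes in one class

`few_sum`: the sum of `1/nr m` over the `m` with at most `M` primes of norm `> T`. `few_tup` (`N ≥ 2`): the tuples whose component `j` has at most `M` primes of norm `> T`.
-/

set_option autoImplicit false

open scoped NumberField
open IsDedekindDomain Filter Topology
open scoped Classical

noncomputable section

namespace H55.APE

open H63.MA H57.AN

variable {K : Type} [Field K] [NumberField K] {p : ℕ} {ζ : K}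

theorem few_sum (K : Type) [Field K] [NumberField K] (M : ℕ) :
    ∃ C : ℝ, 1 ≤ C ∧ ∀ T Y : ℝ, 3 ≤ T → 3 ≤ Y → ∀ A : Finset (Finset (Pl K)),
      (∀ m ∈ A, (∀ v ∈ m, (nm v : ℝ) ≤ Y) ∧ (m.filter fun v => T < (nm v : ℝ)).card ≤ M) →
      ∑ m ∈ A, (nr m)⁻¹ ≤ C * Real.log T * (C + Real.log (Real.log Y)) ^ M := by
  obtain ⟨C₀, hC₀, hmer⟩ := H35.CF.mer1 K
  have hC1 : 1 ≤ 1 + C₀ + Real.exp (C₀ + 1) := by
    have := Real.exp_pos (C₀ + 1)
    linarith
  refine ⟨1 + C₀ + Real.exp (C₀ + 1), hC1, fun T Y hT hY A hA => ?_⟩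
  have hnmpos : ∀ v : Pl K, (0 : ℝ) < nm v := buf_nm_pos
  have hlog1 : ∀ x : ℝ, 3 ≤ x → 1 < Real.log x := by
    intro x hx
    rw [Real.lt_log_iff_exp_lt (by linarith)]
    have := Real.exp_one_lt_d9
    linarith
  have hlT := hlog1 T hT
  have hlY := hlog1 Y hY
  have hllY : 0 ≤ Real.log (Real.log Y) := Real.log_nonneg hlY.le
  obtain ⟨S, hS⟩ : ∃ S : ℝ, S = ∑ v ∈ PB K Y, (1 : ℝ) / nm v := ⟨_, rfl⟩
  have hS0 : 0 ≤ S := by
    rw [hS]
    exact Finset.sum_nonneg fun v _ => by have := hnmpos v; positivity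
  have hS1 : S ≤ Real.log (Real.log Y) + C₀ := by rw [hS]; exact hmer Y hY
  obtain ⟨y, hy⟩ : ∃ y : ℝ, y = (1 + S)⁻¹ := ⟨_, rfl⟩
  have hy0 : 0 < y := by rw [hy]; positivity
  have hy1 : y ≤ 1 := by
    rw [hy]
    exact inv_le_one_of_one_le₀ (by linarith)
  -- weights
  obtain ⟨g, hg⟩ : ∃ g : Pl K → ℝ, g = fun v => (if T < (nm v : ℝ) then y else 1) * (1 / nm v) :=
    ⟨_, rfl⟩
  have hg0 : ∀ v, 0 ≤ g v := by
    intro v
    rw [hg]
    have := hnmpos v
    dsimp only
    split_ifs <;> positivity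
  have h1 : ∀ m ∈ A, (nr m)⁻¹ ≤ (1 + S) ^ M * ∏ v ∈ m, g v := by
    intro m hm
    have hnr : 0 < nr m := lt_of_lt_of_le one_pos (one_le_nr m)
    have e1 : ∏ v ∈ m, g v = y ^ (m.filter fun v => T < (nm v : ℝ)).card * (nr m)⁻¹ := by
      rw [hg]
      dsimp only
      rw [Finset.prod_mul_distrib]
      congr 1
      · rw [Finset.prod_ite, Finset.prod_const, Finset.prod_const_one, mul_one]
      · unfold nr
        rw [← Finset.prod_inv_distrib]
        exact Finset.prod_congr rfl fun v _ => one_div _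
    have h2 : y ^ M ≤ y ^ (m.filter fun v => T < (nm v : ℝ)).card :=
      pow_le_pow_of_le_one hy0.le hy1 (hA m hm).2
    have h3 : (1 + S) ^ M * y ^ M = 1 := by
      rw [← mul_pow, hy, mul_inv_cancel₀ (by positivity), one_pow]
    rw [e1, ← mul_assoc]
    calc (nr m)⁻¹ = (1 + S) ^ M * y ^ M * (nr m)⁻¹ := by rw [h3, one_mul]
      _ ≤ _ := by
        apply mul_le_mul_of_nonneg_right _ (inv_nonneg.2 hnr.le)
        exact mul_le_mul_of_nonneg_left h2 (by positivity)
  have hsub : A ⊆ (PB K Y).powerset := by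
    intro m hm
    rw [Finset.mem_powerset]
    intro v hv
    rw [mem_PB]
    exact (hA m hm).1 v hv
  have h4 : ∏ v ∈ PB K Y, (1 + g v) ≤ Real.exp (Real.log (Real.log T) + C₀ + 1) := by
    have h5 : ∏ v ∈ PB K Y, (1 + g v) ≤ ∏ v ∈ PB K Y, Real.exp (g v) := by
      refine Finset.prod_le_prod (fun v _ => by have := hg0 v; linarith) fun v _ => ?_
      have := Real.add_one_le_exp (g v)
      linarith
    refine h5.trans ?_
    rw [← Real.exp_sum]
    apply Real.exp_le_exp.2
    have h6 : ∑ v ∈ PB K Y, g v ≤ ∑ v ∈ PB K T, (1 : ℝ) / nm v + y * S := by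
      have h7 : ∀ v ∈ PB K Y, g v ≤ (if (nm v : ℝ) ≤ T then (1 : ℝ) / nm v else 0) +
          y * (1 / nm v) := by
        intro v _
        have hv := hnmpos v
        have h8 : 0 ≤ y * (1 / (nm v : ℝ)) := by positivity
        rw [hg]
        dsimp only
        by_cases h : T < (nm v : ℝ)
        · rw [if_pos h, if_neg (not_le.2 h), zero_add]
        · rw [if_neg h, if_pos (not_lt.1 h), one_mul]
          linarith
      refine (Finset.sum_le_sum h7).trans ?_
      rw [Finset.sum_add_distrib, ← Finset.mul_sum, ← hS, ← Finset.sum_filter]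
      apply add_le_add_left
      refine Finset.sum_le_sum_of_subset_of_nonneg ?_ fun v _ _ => ?_
      · intro v hv
        rw [mem_PB]
        exact (Finset.mem_filter.1 hv).2
      · have := hnmpos v
        positivity
    have h7 : y * S ≤ 1 := by
      rw [hy, inv_mul_le_iff₀ (by positivity)]
      linarith
    have h8 := hmer T hT
    linarith
  have h9 : Real.exp (Real.log (Real.log T) + C₀ + 1) = Real.log T * Real.exp (C₀ + 1) := by
    rw [add_assoc, Real.exp_add, Real.exp_log (by linarith)]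
  calc ∑ m ∈ A, (nr m)⁻¹ ≤ ∑ m ∈ A, (1 + S) ^ M * ∏ v ∈ m, g v := Finset.sum_le_sum h1
    _ ≤ ∑ m ∈ (PB K Y).powerset, (1 + S) ^ M * ∏ v ∈ m, g v :=
        Finset.sum_le_sum_of_subset_of_nonneg hsub fun m _ _ =>
          mul_nonneg (by positivity) (Finset.prod_nonneg fun v _ => hg0 v)
    _ = (1 + S) ^ M * ∏ v ∈ PB K Y, (1 + g v) := by
        rw [← Finset.mul_sum, Finset.prod_one_add]
    _ ≤ (1 + S) ^ M * (Real.log T * Real.exp (C₀ + 1)) := by
        rw [← h9]
        exact mul_le_mul_of_nonneg_left h4 (by positivity)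
    _ ≤ (1 + C₀ + Real.exp (C₀ + 1) + Real.log (Real.log Y)) ^ M *
          (Real.log T * (1 + C₀ + Real.exp (C₀ + 1))) := by
        have h10 := Real.exp_pos (C₀ + 1)
        apply mul_le_mul
        · apply pow_le_pow_left₀ (by positivity)
          linarith
        · apply mul_le_mul_of_nonneg_left _ (by linarith)
          linarith
        · positivity
        · positivity
    _ = _ := by ring

/-- the tuples whose component `j` has at most `M` large primes -/
def SmT (D : RD0 K p ζ) (N : ℕ) (j : Fin N) (M : ℕ) (T Y : ℝ) :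
    Finset (Fin N → Finset (Pl K)) :=
  (Fintype.piFinset fun _ : Fin N => GF D Y).filter fun n =>
    ∏ i, nr (n i) ≤ Y ∧ ((n j).filter fun v => T < (nm v : ℝ)).card ≤ M

theorem few_tup (D : RD0 K p ζ) (N : ℕ) (hN : 2 ≤ N) (j : Fin N) (M : ℕ) :
    ∃ C : ℝ, 1 ≤ C ∧ ∀ T Y : ℝ, 3 ≤ T → 3 ≤ Y →
      ((SmT D N j M T Y).card : ℝ) ≤
        C * Y * (1 + Real.log Y) ^ (N - 2) *
          (Real.log T * (C + Real.log (Real.log Y)) ^ M) := by
  have hne : Nonempty {i : Fin N // i ≠ j} := by
    have h1 : 1 < Fintype.card (Fin N) := by rw [Fintype.card_fin]; omega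
    obtain ⟨i, hi⟩ := Fintype.exists_ne_of_one_lt_card h1 j
    exact ⟨⟨i, hi⟩⟩
  obtain ⟨C, hC, h⟩ := af_tup_one K {i : Fin N // i ≠ j}
  have hcard : Fintype.card {i : Fin N // i ≠ j} - 1 = N - 2 := by
    rw [Fintype.card_subtype_compl, Fintype.card_fin, Fintype.card_subtype_eq]
    omega
  rw [hcard] at h
  obtain ⟨C', hC', h'⟩ := few_sum K M
  refine ⟨(1 + C) * C', one_le_mul_of_one_le_of_one_le (by linarith) hC', fun T Y hT hY => ?_⟩
  have hY1 : 1 ≤ Y := by linarith
  have hLY : 0 ≤ Real.log Y := Real.log_nonneg hY1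
  have hlog1 : ∀ x : ℝ, 3 ≤ x → 1 < Real.log x := by
    intro x hx
    rw [Real.lt_log_iff_exp_lt (by linarith)]
    have := Real.exp_one_lt_d9
    linarith
  have hlT := hlog1 T hT
  have hllY : 0 ≤ Real.log (Real.log Y) := Real.log_nonneg (hlog1 Y hY).le
  set S := SmT D N j M T Y with hS
  have hmem : ∀ n ∈ S, (∀ i, n i ∈ AF K Y) ∧ ∏ i, nr (n i) ≤ Y ∧
      ((n j).filter fun v => T < (nm v : ℝ)).card ≤ M := by
    intro n hn
    rw [hS, SmT, Finset.mem_filter, Fintype.mem_piFinset] at hn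
    refine ⟨fun i => ?_, hn.2.1, hn.2.2⟩
    have := hn.1 i
    rw [GF, Finset.mem_filter] at this
    exact this.1
  set A := S.image fun n => n j with hA
  have hAm : ∀ m ∈ A, (∀ v ∈ m, (nm v : ℝ) ≤ Y) ∧
      (m.filter fun v => T < (nm v : ℝ)).card ≤ M := by
    intro m hm
    rw [hA, Finset.mem_image] at hm
    obtain ⟨n, hn, rfl⟩ := hm
    refine ⟨fun v hv => ?_, (hmem n hn).2.2⟩
    have := (hmem n hn).1 j
    rw [mem_AF] at this
    exact (buf_nm_le hv).trans this
  have h1 : S.card = ∑ m ∈ A, (S.filter fun n => n j = m).card :=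
    Finset.card_eq_sum_card_image _ _
  have h2 : ∀ m ∈ A, ((S.filter fun n => n j = m).card : ℝ) ≤
      C * Y * (1 + Real.log Y) ^ (N - 2) * (nr m)⁻¹ := by
    intro m hm
    have hm1 := one_le_nr m
    have hm0 : 0 < nr m := by linarith
    have hsplit : ∀ n : Fin N → Finset (Pl K), n j = m →
        ∏ i, nr (n i) = nr m * ∏ i : {i : Fin N // i ≠ j}, nr (n i) := by
      intro n hn
      rw [← Finset.mul_prod_erase Finset.univ (fun i => nr (n i)) (Finset.mem_univ j), hn]
      congr 1
      exact Finset.prod_subtype (Finset.univ.erase j) (fun i => by simp) (fun i => nr (n i))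
    have hsub : ∀ n ∈ S.filter (fun n => n j = m),
        ∏ i : {i : Fin N // i ≠ j}, nr (n i) ≤ Y / nr m := by
      intro n hn
      rw [Finset.mem_filter] at hn
      rw [le_div_iff₀ hm0, mul_comm, ← hsplit n hn.2]
      exact (hmem n hn.1).2.1
    have hnrY : nr m ≤ Y := by
      rw [hA, Finset.mem_image] at hm
      obtain ⟨n, hn, rfl⟩ := hm
      have := (hmem n hn).1 j
      rwa [mem_AF] at this
    have hy' : 1 ≤ Y / nr m := by rwa [one_le_div hm0]
    have h3 : (S.filter fun n => n j = m).card ≤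
        ((Fintype.piFinset fun _ : {i : Fin N // i ≠ j} => AF K (Y / nr m)).filter
          (fun g => ∏ a, nr (g a) ≤ Y / nr m)).card := by
      apply Finset.card_le_card_of_injOn (fun n (i : {i : Fin N // i ≠ j}) => n i)
      · intro n hn
        have h4 := hsub n hn
        rw [Finset.mem_coe, Finset.mem_filter, Fintype.mem_piFinset]
        refine ⟨fun i => ?_, h4⟩
        rw [mem_AF]
        exact (atupa_le_prod (fun i : {i : Fin N // i ≠ j} => n i) i).trans h4
      · intro n hn n' hn' hnn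
        rw [Finset.mem_coe, Finset.mem_filter] at hn hn'
        funext i
        by_cases hi : i = j
        · rw [hi, hn.2, hn'.2]
        · exact congrFun hnn ⟨i, hi⟩
    have h4 := h (Y / nr m) hy'
    have h5 : Real.log (Y / nr m) ≤ Real.log Y := by
      apply Real.log_le_log (by positivity)
      exact div_le_self (by linarith) hm1
    have h6 : 0 ≤ Real.log (Y / nr m) := Real.log_nonneg hy'
    calc ((S.filter fun n => n j = m).card : ℝ) ≤
        C * (Y / nr m) * (1 + Real.log (Y / nr m)) ^ (N - 2) := by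
          refine le_trans (Nat.cast_le.2 h3) (le_trans (le_of_eq ?_) h4)
          congr 2
          ext g
          simp only [Finset.mem_filter, Fintype.mem_piFinset]
      _ ≤ C * (Y / nr m) * (1 + Real.log Y) ^ (N - 2) := by gcongr
      _ = _ := by rw [div_eq_mul_inv]; ring
  rw [h1]
  push_cast
  refine (Finset.sum_le_sum h2).trans ?_
  rw [← Finset.mul_sum]
  have h3 := h' T Y hT hY A hAm
  have h4 : C' + Real.log (Real.log Y) ≤ (1 + C) * C' + Real.log (Real.log Y) := by nlinarith
  calc C * Y * (1 + Real.log Y) ^ (N - 2) * ∑ m ∈ A, (nr m)⁻¹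
      ≤ C * Y * (1 + Real.log Y) ^ (N - 2) *
        (C' * Real.log T * (C' + Real.log (Real.log Y)) ^ M) := by gcongr
    _ ≤ (1 + C) * Y * (1 + Real.log Y) ^ (N - 2) *
        (C' * Real.log T * ((1 + C) * C' + Real.log (Real.log Y)) ^ M) := by
        gcongr
        linarith
    _ = _ := by ring

end H55.APE
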