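import Pool.Agent.H55.APE.RcLim
import Pool.Agent.H77.WD.Gs

/-!
# H55-APE-START: the beginning of AP

For `q = id`, `b = 0`, `w = 0` the sum `SS` of H86/AP/Df is the number of the homomorphisms `SYE` (H86/AP/End).
-/

set_option autoImplicit false
set_option linter.dupNamespace false

open scoped NumberField
open IsDedekindDomain Filter Topology
open scoped Classical

noncomputable section

namespace H55.APE

open H63.MA H38.ML H38.BB H38.BG H57.PC H57.BRA H77.PC3 H77.WD Pool.Agent.H19.NF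
  Pool.Agent.H19.AB H86.AP H35.CF

section vb

variable {p m : ℕ} {P : Type} [Group P] [Fintype P] [NeZero (p ^ m)]

theorem vg_id (l : ℕ) (g s x : P) :
    Vg (m := m) (p := p) (MonoidHom.id P) (fun x y => l • (0 : P → P → ZMod (p ^ m)) x y) g s x =
      if IsConj s g then WC s x else 0 := by
  have h1 : Nat.card (MonoidHom.id P).ker = 1 := by
    rw [MonoidHom.ker_id, Subgroup.card_bot]
  have h2 : ∀ σ : P, VV (ch (p ^ m)) (MonoidHom.id P)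
      (fun x y => l • (0 : P → P → ZMod (p ^ m)) x y) WC σ x = WC σ x := by
    intro σ
    unfold VV
    rw [Finset.sum_eq_single x]
    · have h3 : br (fun x y => l • (0 : P → P → ZMod (p ^ m)) x y) σ x = 0 := by
        simp [br]
      rw [if_pos (by rfl), h3, neg_zero, AddChar.map_zero_eq_one, mul_one]
    · intro y _ hy
      rw [if_neg]
      exact hy
    · intro h
      exact absurd (Finset.mem_univ x) h
  unfold Vg
  rw [h1, Nat.cast_one, inv_one, one_mul, Finset.sum_eq_single s]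
  · rw [h2]
    by_cases h : IsConj s g
    · rw [if_pos ⟨h, rfl⟩, if_pos h]
    · rw [if_neg fun h' => h h'.1, if_neg h]
  · intro y _ hy
    rw [if_neg]
    rintro ⟨-, h⟩
    exact hy h
  · intro h
    exact absurd (Finset.mem_univ s) h

end vb

variable {K : Type} [Field K] [NumberField K] {Ω : Type} [Field Ω] [Algebra K Ω]
  {p m N : ℕ} {ζ : K}

theorem pgrp (_hp : p.Prime) {P : Type} [Group P] (hP : ∀ x : P, x ^ p = 1) : IsPGroup p P :=
  fun x => ⟨1, by rw [pow_one]; exact hP x⟩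

theorem mem_XS [IsAlgClosure K Ω] (hp : p.Prime) (hζ : IsPrimitiveRoot ζ p) {D : RD0 K p ζ}
    (L : LDs D Ω)
    (Q : DP K Ω) {G : Type} [Group G] [Finite G] (hG : ∀ x : G, x ^ p = 1)
    (φ₁ : Gal(Ω/K) →* G) (T : Finset (Pl K)) (φ : Gal(Ω/K) →* G) :
    φ ∈ XS L Q φ₁ T ↔ Hon L T φ ∧ Teq D.S0 Q φ φ₁ := by
  obtain ⟨A⟩ := gs_exists hp hζ D Ω
  have hfin : (XT L Q φ₁ T).Finite := by
    refine (hon_fin hp hζ L A T G).subset ?_
    rintro φ ⟨h1, -⟩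
    exact ⟨h1, (pgrp hp hG).to_subgroup _⟩
  unfold XS
  rw [dif_pos hfin, Set.Finite.mem_toFinset]
  rfl

/-- the pairs -/
def RP {D : RD0 K p ζ} (L : LDs D Ω) (Q : DP K Ω) {P : Type} [Group P] [NeZero N] (c : CL p N P)
    (φ₁ : Gal(Ω/K) →* P) (E : Finset (Pl K)) (e : Pl K → P) (M : ℕ) (T₀ Y : ℝ) :
    Finset (Σ _ : Pl K → Option (Fin N), (Gal(Ω/K) →* P)) :=
  (RC D N M T₀ Y E).sigma fun f => (XS L Q φ₁ (sp (ZZ D Y \ E) f ∪ E)).filter fun φ =>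
    ∀ v ∈ sp (ZZ D Y \ E) f ∪ E, IsConj (φ (L.t v)) (gl c E e f v)

theorem start_sum [IsAlgClosure K Ω] [NeZero N] (hp : p.Prime) (hζ : IsPrimitiveRoot ζ p)
    [NeZero (p ^ m)] (D : RD K p ζ)
    (L : LDs D.toRD0 Ω) (Q : DP K Ω) (Fr : FR L) (lam : Pl K → ZMod p)
    (I : (Gal(Ω/K) → Gal(Ω/K) → Gal(Ω/K) → ZMod (p ^ m)) →+ AddCircle (1 : ℝ))
    {P : Type} [Group P] [Fintype P] (hP : ∀ x : P, x ^ p = 1) (c : CL p N P)
    (φ₁ : Gal(Ω/K) →* P) (E : Finset (Pl K))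
    (e : Pl K → P) (hE : ∀ v ∈ E, v ∉ D.S0) (M : ℕ) (T₀ Y : ℝ) :
    SS c (BB L Q Fr lam I φ₁ (MonoidHom.id P) 0 0) D.toRD0 E e M T₀ Y =
      ((RP L Q c φ₁ E e M T₀ Y).card : ℂ) := by
  unfold SS RP
  rw [Finset.card_sigma, Nat.cast_sum]
  refine Finset.sum_congr rfl fun f hf => ?_
  unfold H86.AP.BB
  have hid : (MonoidHom.id P).comp φ₁ = φ₁ := MonoidHom.id_comp φ₁
  rw [hid, Finset.card_filter, Nat.cast_sum]
  refine Finset.sum_congr rfl fun φ hφ => ?_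
  rw [mem_XS hp hζ L Q hP] at hφ
  have hJ : Jf I (0 : P → P → P → ZMod (p ^ m)) φ φ₁ = 0 := by
    unfold Jf
    have h1 : (fun a b c : Gal(Ω/K) => (0 : P → P → P → ZMod (p ^ m)) (φ a) (φ b) (φ c) -
        (0 : P → P → P → ZMod (p ^ m)) (φ₁ a) (φ₁ b) (φ₁ c)) = 0 := by
      funext a b c
      simp
    rw [h1, map_zero]
  rw [hJ, AddChar.map_zero_eq_one, one_mul]
  have hS0 : ∀ v ∈ sp (ZZ D.toRD0 Y \ E) f ∪ E, v ∉ D.S0 := by
    intro v hv
    rw [Finset.mem_union] at hv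
    rcases hv with hv | hv
    · rw [mem_sp, Finset.mem_sdiff, mem_ZZ] at hv
      exact hv.1.1.2.1
    · exact hE v hv
  have hv : ∀ v ∈ sp (ZZ D.toRD0 Y \ E) f ∪ E,
      Vg (MonoidHom.id P) (fun x y => (lam v).val • (0 : P → P → ZMod (p ^ m)) x y)
        (gl c E e f v) (φ (L.t v)) (φ (Fr.F v)) =
        if IsConj (φ (L.t v)) (gl c E e f v) then 1 else 0 := by
    intro v hv
    rw [vg_id]
    by_cases h : IsConj (φ (L.t v)) (gl c E e f v)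
    · rw [if_pos h, if_pos h]
      unfold WC
      rw [if_pos]
      exact (Fr.com v (hS0 v hv) P φ hφ.1.1 fun τ _ => hP _).symm
    · rw [if_neg h, if_neg h]
  rw [Finset.prod_congr rfl hv]
  by_cases hall : ∀ v ∈ sp (ZZ D.toRD0 Y \ E) f ∪ E, IsConj (φ (L.t v)) (gl c E e f v)
  · rw [if_pos hall, Finset.prod_congr rfl fun v hv => if_pos (hall v hv), Finset.prod_const_one,
      Nat.cast_one]
  · rw [if_neg hall, Nat.cast_zero]
    push Not at hall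
    obtain ⟨v, hv1, hv2⟩ := hall
    exact Finset.prod_eq_zero hv1 (if_neg hv2)

/-- a subgroup of a finite `p`-group which meets all nontrivial conjugacy classes is everything -/
theorem full (hp : p.Prime) {P : Type} [Group P] [Finite P] (hP : ∀ x : P, x ^ p = 1)
    (M : Subgroup P) (h : ∀ x : P, x ≠ 1 → ∃ y ∈ M, IsConj y x) : M = ⊤ := by
  by_contra hM
  obtain ⟨f, hf, hfM⟩ := pg_char hp (pgrp hp hP) M hM
  apply hf
  refine MonoidHom.ext fun x => ?_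
  rw [MonoidHom.one_apply]
  by_cases hx : x = 1
  · rw [hx, map_one]
  · obtain ⟨y, hy, hyx⟩ := h x hx
    have h1 := MonoidHom.map_isConj f hyx
    rw [isConj_iff_eq, hfM y hy] at h1
    exact h1.symm

/-- the homomorphisms of H86/AP/End -/
def SYE' {D : RD0 K p ζ} (L : LDs D Ω) (Q : DP K Ω) {P : Type} [Group P] (c : CL p N P)
    (φ₁ : Gal(Ω/K) →* P) (E : Finset (Pl K)) (e : Pl K → P) (M : ℕ) (T₀ Y : ℝ) :
    Set (Gal(Ω/K) →* P) :=
  {φ | H38.ML.FT φ ∧ Teq D.S0 Q φ φ₁ ∧ (∀ v ∈ E, IsConj (φ (L.t v)) (e v)) ∧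
    (∀ v, v ∉ D.S0 → v ∉ E → φ (L.t v) ≠ 1 → D.Gd v) ∧
    (∀ T : Finset (Pl K), (∀ v ∈ T, v ∉ D.S0 ∧ v ∉ E ∧ φ (L.t v) ≠ 1) → nr T ≤ Y) ∧
    ∀ j, ∃ T : Finset (Pl K), M ≤ T.card ∧
      ∀ v ∈ T, D.Gd v ∧ v ∉ E ∧ T₀ < (nm v : ℝ) ∧ IsConj (φ (L.t v)) (c.g j)}

theorem rp_sub [IsAlgClosure K Ω] [NeZero N] (hp : p.Prime) (hζ : IsPrimitiveRoot ζ p)
    {D : RD0 K p ζ}
    (L : LDs D Ω) (Q : DP K Ω) {P : Type} [Group P] [Fintype P] (hP : ∀ x : P, x ^ p = 1)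
    (c : CL p N P) (φ₁ : Gal(Ω/K) →* P) (E : Finset (Pl K)) (e : Pl K → P) (M : ℕ) (T₀ Y : ℝ)
    (f : Pl K → Option (Fin N)) (φ : Gal(Ω/K) →* P)
    (h : (⟨f, φ⟩ : Σ _ : Pl K → Option (Fin N), (Gal(Ω/K) →* P)) ∈ RP L Q c φ₁ E e M T₀ Y) :
    φ ∈ SYE' L Q c φ₁ E e M T₀ Y ∧
      ∀ v i, f v = some i ↔ D.Gd v ∧ v ∉ E ∧ IsConj (φ (L.t v)) (c.g i) := by
  unfold RP at h
  simp only [Finset.mem_sigma, Finset.mem_filter, mem_XS hp hζ L Q hP] at h
  obtain ⟨hf, ⟨hH, hT⟩, hcl⟩ := h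
  unfold H86.AP.RC at hf
  rw [Finset.mem_filter, mem_cf] at hf
  obtain ⟨hf0, hR, hnr⟩ := hf
  have hsp : ∀ v, v ∈ sp (ZZ D Y \ E) f ↔ f v ≠ none := by
    intro v
    rw [mem_sp]
    refine ⟨fun h => h.2, fun h => ⟨?_, h⟩⟩
    by_contra hv
    exact h (hf0 v hv)
  have hty : ∀ v i, f v = some i → D.Gd v ∧ v ∉ E ∧ IsConj (φ (L.t v)) (c.g i) := by
    intro v i hi
    have hv : v ∈ sp (ZZ D Y \ E) f := by
      rw [hsp, hi]
      exact Option.some_ne_none i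
    have hvZ := (mem_sp.1 hv).1
    rw [Finset.mem_sdiff, mem_ZZ] at hvZ
    have h1 := hcl v (Finset.mem_union_left _ hv)
    unfold gl cf at h1
    rw [if_neg hvZ.2, hi, Option.getD_some] at h1
    exact ⟨hvZ.1.2, hvZ.2, h1⟩
  have htriv : ∀ v, v ∉ D.S0 → v ∉ E → f v = none → φ (L.t v) = 1 := by
    intro v hv hvE hfv
    refine (hH.2 v hv).2 ?_
    rw [Finset.mem_union, hsp, not_or, not_not]
    exact ⟨hfv, hvE⟩
  have hiff : ∀ v i, f v = some i ↔ D.Gd v ∧ v ∉ E ∧ IsConj (φ (L.t v)) (c.g i) := by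
    intro v i
    refine ⟨hty v i, fun h => ?_⟩
    cases hfv : f v with
    | none =>
      exfalso
      have h1 := htriv v h.1.1 h.2.1 hfv
      have h2 := h.2.2
      rw [h1] at h2
      exact c.ne i (isConj_one_right.1 h2)
    | some j =>
      rw [c.uni j i ((hty v j hfv).2.2.symm.trans h.2.2)]
  refine ⟨⟨hH.1, hT, ?_, ?_, ?_, ?_⟩, hiff⟩
  · intro v hv
    have h1 := hcl v (Finset.mem_union_right _ hv)
    unfold gl at h1
    rwa [if_pos hv] at h1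
  · intro v hv hvE h1
    cases hfv : f v with
    | none => exact absurd (htriv v hv hvE hfv) h1
    | some i => exact (hty v i hfv).1
  · intro T hTT
    have hsub : T ⊆ sp (ZZ D Y \ E) f := by
      intro v hv
      rw [hsp]
      intro hfv
      exact (hTT v hv).2.2 (htriv v (hTT v hv).1 (hTT v hv).2.1 hfv)
    exact (nr_mono hsub).trans hnr
  · intro j
    refine ⟨(pl (ZZ D Y \ E) f j).filter fun v => T₀ < (nm v : ℝ), hR j, fun v hv => ?_⟩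
    rw [Finset.mem_filter, mem_pl] at hv
    obtain ⟨h1, h2, h3⟩ := hty v j hv.1.2
    exact ⟨h1, h2, hv.2, h3⟩

theorem rp_sup [IsAlgClosure K Ω] [NeZero N] (hp : p.Prime) (hζ : IsPrimitiveRoot ζ p)
    {D : RD0 K p ζ}
    (L : LDs D Ω) (Q : DP K Ω) {P : Type} [Group P] [Fintype P] (hP : ∀ x : P, x ^ p = 1)
    (c : CL p N P) (hc : ∀ x : P, x ≠ 1 → ∃ j, IsConj x (c.g j)) (φ₁ : Gal(Ω/K) →* P)
    (E : Finset (Pl K)) (e : Pl K → P) (M : ℕ) (T₀ Y : ℝ) (φ : Gal(Ω/K) →* P)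
    (h : φ ∈ SYE' L Q c φ₁ E e M T₀ Y) :
    ∃ f : Pl K → Option (Fin N),
      (⟨f, φ⟩ : Σ _ : Pl K → Option (Fin N), (Gal(Ω/K) →* P)) ∈ RP L Q c φ₁ E e M T₀ Y := by
  obtain ⟨hft, hT, hEE, hG, hn, hR⟩ := h
  obtain ⟨f, hf⟩ : ∃ f : Pl K → Option (Fin N), f = fun v =>
      if h : ∃ i, D.Gd v ∧ v ∉ E ∧ IsConj (φ (L.t v)) (c.g i) then some h.choose else none :=
    ⟨_, rfl⟩
  have hfi : ∀ v i, f v = some i ↔ D.Gd v ∧ v ∉ E ∧ IsConj (φ (L.t v)) (c.g i) := by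
    intro v i
    rw [hf]
    dsimp only
    constructor
    · intro h
      by_cases hv : ∃ i, D.Gd v ∧ v ∉ E ∧ IsConj (φ (L.t v)) (c.g i)
      · rw [dif_pos hv] at h
        rw [← Option.some.inj h]
        exact hv.choose_spec
      · rw [dif_neg hv] at h
        exact absurd h.symm (Option.some_ne_none i)
    · intro h
      have hv : ∃ i, D.Gd v ∧ v ∉ E ∧ IsConj (φ (L.t v)) (c.g i) := ⟨i, h⟩
      rw [dif_pos hv]
      congr 1
      exact c.uni _ _ (hv.choose_spec.2.2.symm.trans h.2.2)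
  have hram : ∀ v i, f v = some i → v ∉ D.S0 ∧ v ∉ E ∧ φ (L.t v) ≠ 1 := by
    intro v i h
    rw [hfi] at h
    refine ⟨h.1.1, h.2.1, fun h1 => ?_⟩
    have h2 := h.2.2
    rw [h1] at h2
    exact c.ne i (isConj_one_right.1 h2)
  have hZ : ∀ v i, f v = some i → v ∈ ZZ D Y \ E := by
    intro v i h
    rw [Finset.mem_sdiff, mem_ZZ]
    refine ⟨⟨?_, ((hfi v i).1 h).1⟩, (hram v i h).2.1⟩
    have h1 := hn {v} fun w hw => by
      rw [Finset.mem_singleton] at hw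
      rw [hw]
      exact hram v i h
    unfold nr at h1
    rwa [Finset.prod_singleton] at h1
  have hsp : ∀ v, v ∈ sp (ZZ D Y \ E) f ↔ ∃ i, f v = some i := by
    intro v
    rw [mem_sp]
    constructor
    · rintro ⟨-, h⟩
      exact Option.ne_none_iff_exists'.1 h
    · rintro ⟨i, hi⟩
      refine ⟨hZ v i hi, ?_⟩
      rw [hi]
      exact Option.some_ne_none i
  refine ⟨f, ?_⟩
  unfold RP H86.AP.RC
  simp only [Finset.mem_sigma, Finset.mem_filter, mem_XS hp hζ L Q hP, mem_cf]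
  refine ⟨⟨fun v hv => ?_, fun j => ?_, ?_⟩, ⟨⟨hft, fun v hv => ⟨hP _, fun hv' => ?_⟩⟩, hT⟩,
    fun v hv => ?_⟩
  · cases hfv : f v with
    | none => rfl
    | some i => exact absurd (hZ v i hfv) hv
  · obtain ⟨T, h1, h2⟩ := hR j
    refine h1.trans (Finset.card_le_card fun v hv => ?_)
    obtain ⟨h3, h4, h5, h6⟩ := h2 v hv
    have h7 : f v = some j := (hfi v j).2 ⟨h3, h4, h6⟩
    rw [Finset.mem_filter, mem_pl]
    exact ⟨⟨hZ v j h7, h7⟩, h5⟩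
  · refine hn _ fun v hv => ?_
    obtain ⟨i, hi⟩ := (hsp v).1 hv
    exact hram v i hi
  · rw [Finset.mem_union, not_or] at hv'
    by_contra h1
    obtain ⟨j, hj⟩ := hc _ h1
    exact hv'.1 ((hsp v).2 ⟨j, (hfi v j).2 ⟨hG v hv hv'.2 h1, hv'.2, hj⟩⟩)
  · unfold gl
    by_cases hvE : v ∈ E
    · rw [if_pos hvE]
      exact hEE v hvE
    · rw [if_neg hvE]
      rw [Finset.mem_union] at hv
      obtain ⟨i, hi⟩ := (hsp v).1 (hv.resolve_right hvE)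
      unfold cf
      rw [hi, Option.getD_some]
      exact ((hfi v i).1 hi).2.2

theorem start' [IsAlgClosure K Ω] [NeZero N] (hp : p.Prime) (hζ : IsPrimitiveRoot ζ p)
    [NeZero (p ^ m)] (D : RD K p ζ) (L : LDs D.toRD0 Ω) (Q : DP K Ω) (Fr : FR L)
    (lam : Pl K → ZMod p)
    (I : (Gal(Ω/K) → Gal(Ω/K) → Gal(Ω/K) → ZMod (p ^ m)) →+ AddCircle (1 : ℝ))
    {P : Type} [Group P] [Fintype P] (hP : ∀ x : P, x ^ p = 1) (c : CL p N P)
    (hc : ∀ x : P, x ≠ 1 → ∃ j, IsConj x (c.g j)) (φ₁ : Gal(Ω/K) →* P) (E : Finset (Pl K))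
    (e : Pl K → P) (hE : ∀ v ∈ E, v ∉ D.S0) (M : ℕ) (T₀ Y : ℝ) :
    (SYE' L Q c φ₁ E e M T₀ Y).Finite ∧
    (1 ≤ M → ∀ φ ∈ SYE' L Q c φ₁ E e M T₀ Y, Function.Surjective φ) ∧
    SS c (BB L Q Fr lam I φ₁ (MonoidHom.id P) 0 0) D.toRD0 E e M T₀ Y =
      ((SYE' L Q c φ₁ E e M T₀ Y).ncard : ℂ) := by
  have himg : SYE' L Q c φ₁ E e M T₀ Y =
      (fun s : (Σ _ : Pl K → Option (Fin N), (Gal(Ω/K) →* P)) =>
      s.2) '' (RP L Q c φ₁ E e M T₀ Y : Set (Σ _ : Pl K → Option (Fin N), (Gal(Ω/K) →* P))) := by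
    ext φ
    constructor
    · intro h
      obtain ⟨f, hf⟩ := rp_sup hp hζ L Q hP c hc φ₁ E e M T₀ Y φ h
      exact ⟨⟨f, φ⟩, Finset.mem_coe.2 hf, rfl⟩
    · rintro ⟨⟨f, φ'⟩, hf, rfl⟩
      exact (rp_sub hp hζ L Q hP c φ₁ E e M T₀ Y f φ' (Finset.mem_coe.1 hf)).1
  have hinj : Set.InjOn (fun s : (Σ _ : Pl K → Option (Fin N), (Gal(Ω/K) →* P)) => s.2)
      (RP L Q c φ₁ E e M T₀ Y : Set (Σ _ : Pl K → Option (Fin N), (Gal(Ω/K) →* P))) := by
    rintro ⟨f, φ⟩ hf ⟨f', φ'⟩ hf' h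
    dsimp only at h
    subst h
    have h1 := (rp_sub hp hζ L Q hP c φ₁ E e M T₀ Y f φ (Finset.mem_coe.1 hf)).2
    have h2 := (rp_sub hp hζ L Q hP c φ₁ E e M T₀ Y f' φ (Finset.mem_coe.1 hf')).2
    have h3 : f = f' := by
      funext v
      cases hfv : f v with
      | some i => exact ((h2 v i).2 ((h1 v i).1 hfv)).symm
      | none =>
        cases hfv' : f' v with
        | none => rfl
        | some i =>
          have := (h1 v i).2 ((h2 v i).1 hfv')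
          rw [hfv] at this
          exact this
    rw [h3]
  refine ⟨?_, ?_, ?_⟩
  · rw [himg]
    exact (Finset.finite_toSet _).image _
  · rintro hM φ ⟨-, -, -, -, -, hR⟩
    rw [← MonoidHom.range_eq_top]
    refine full hp hP _ fun x hx => ?_
    obtain ⟨j, hj⟩ := hc x hx
    obtain ⟨T, h1, h2⟩ := hR j
    obtain ⟨v, hv⟩ := Finset.card_pos.1 (hM.trans h1)
    exact ⟨φ (L.t v), ⟨L.t v, rfl⟩, (h2 v hv).2.2.2.trans hj.symm⟩
  · rw [start_sum hp hζ D L Q Fr lam I hP c φ₁ E e hE M T₀ Y, himg,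
      hinj.ncard_image, Set.ncard_coe_finset]

end H55.APE
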