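import Pool.Agent.H63.MB.BUf

/-!
# H55-APE-UNPOS: the density of the disjoint tuples of sets of good primes is positive

`ti_val`: the explicit limit of `TI K F (k+1) y / (y (log y)^k)`; `un_pos`: the limit of `UN D N ∅ y / (y (log y)^(N-1))` is positive.
-/

set_option autoImplicit false

open scoped NumberField
open IsDedekindDomain Filter Topology
open scoped Classical

noncomputable section

namespace H55.APE

open H63.MA

variable {K : Type} [Field K] [NumberField K] {p : ℕ} {ζ : K}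

theorem ac_val (K : Type) [Field K] [NumberField K] :
    ∃ κ : ℝ, 0 < κ ∧ ∀ F : Finset (Pl K), Tendsto (fun y : ℝ => ((acG K F y).card : ℝ) / y) atTop
      (𝓝 (κ * ∏ v ∈ F, (1 - (nm v : ℝ)⁻¹))) := by
  obtain ⟨κ, δ, hκ, hδ, hδ1, hcop⟩ := cnt_cop K
  refine ⟨κ, hκ, fun F => ?_⟩
  obtain ⟨C, hC, hcF⟩ := hcop F
  rw [tendsto_iff_norm_sub_tendsto_zero]
  have hz : Tendsto (fun y : ℝ => C * y ^ (-δ)) atTop (𝓝 0) := by
    have := (tendsto_rpow_neg_atTop hδ).const_mul C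
    simpa using this
  refine squeeze_zero' (Eventually.of_forall fun y => norm_nonneg _) ?_ hz
  filter_upwards [eventually_ge_atTop (1 : ℝ)] with y hy
  have hy0 : 0 < y := by linarith
  have h1 := hcF y hy
  have h3 : (((IN K y).filter fun I => ∀ v ∈ F, ¬ v.asIdeal ∣ I).card : ℝ) =
    ((acG K F y).card : ℝ) := rfl
  rw [h3] at h1
  have h4 : ((acG K F y).card : ℝ) / y - κ * ∏ v ∈ F, (1 - (nm v : ℝ)⁻¹) =
      (((acG K F y).card : ℝ) - κ * (∏ v ∈ F, (1 - (nm v : ℝ)⁻¹)) * y) / y := by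
    field_simp
  rw [h4, Real.norm_eq_abs, abs_div, abs_of_pos hy0, div_le_iff₀ hy0]
  refine h1.trans (le_of_eq ?_)
  rw [sub_eq_add_neg, Real.rpow_add hy0, Real.rpow_one]
  ring

theorem ti_val (K : Type) [Field K] [NumberField K] (F : Finset (Pl K)) (α : ℝ)
    (hα : Tendsto (fun y : ℝ => ((acG K F y).card : ℝ) / y) atTop (𝓝 α)) (k : ℕ) :
    Tendsto (fun y : ℝ => TI K F (k + 1) y / (y * Real.log y ^ k)) atTop
      (𝓝 (α ^ (k + 1) / (k.factorial : ℝ))) := by
  induction k with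
  | zero =>
    rw [zero_add, pow_one, Nat.factorial_zero, Nat.cast_one, div_one]
    refine hα.congr' ?_
    filter_upwards [eventually_ge_atTop (0 : ℝ)] with y hy
    rw [bub_one K F hy, pow_zero, mul_one]
  | succ k ih =>
    obtain ⟨C, hC, hup⟩ := ti_up K (k + 1) (by omega)
    have hαn : Tendsto (fun n : ℕ => (∑ j ∈ Finset.Icc 1 n, buba K F j) / (n : ℝ)) atTop
        (𝓝 α) := by
      have := hα.comp tendsto_natCast_atTop_atTop
      refine this.congr fun n => ?_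
      simp only [Function.comp]
      rw [bub_card]
    have h := bu_conv (buba K F) (fun n => Nat.cast_nonneg _) α hαn k
      (fun y => TI K F (k + 1) y) _ C ih (fun y hy => by
        rw [abs_of_nonneg (bub_nonneg K F (k + 1) y)]
        have := hup F y hy
        simpa using this)
    have e1 : α ^ (k + 1 + 1) / ((k + 1).factorial : ℝ) =
        α * (α ^ (k + 1) / (k.factorial : ℝ)) / (k + 1) := by
      rw [Nat.factorial_succ, Nat.cast_mul, Nat.cast_add, Nat.cast_one]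
      have h1 : (k.factorial : ℝ) ≠ 0 := Nat.cast_ne_zero.2 (Nat.factorial_ne_zero k)
      have h2 : (k : ℝ) + 1 ≠ 0 := by positivity
      field_simp
      ring
    rw [e1]
    refine h.congr' ?_
    filter_upwards [eventually_ge_atTop (0 : ℝ)] with y hy
    rw [bub_rec K F (k + 1) hy, ← bub_group K F hy (fun n => TI K F (k + 1) (y / (n : ℝ)))]

theorem un_mono (D : RD0 K p ζ) (N : ℕ) (F : Finset (Pl K)) (y : ℝ) :
    UN D N F y ≤ UN D N ∅ y := by
  unfold UN
  refine Nat.cast_le.2 (Finset.card_le_card fun n hn => ?_)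
  rw [Finset.mem_filter] at hn ⊢
  exact ⟨hn.1, hn.2.1, fun i => Finset.disjoint_empty_right _, hn.2.2.2⟩

theorem un_pos (D : RD0 K p ζ) (N : ℕ) (hN : 1 ≤ N) (u : ℝ)
    (hu : Tendsto (fun y : ℝ => UN D N ∅ y / (y * Real.log y ^ (N - 1))) atTop (𝓝 u)) : 0 < u := by
  obtain ⟨κ, hκ, hac⟩ := ac_val K
  obtain ⟨C, hC, hun⟩ := un_ti D N hN
  obtain ⟨cm, hcm, hmert⟩ := mert_low K
  obtain ⟨k, rfl⟩ : ∃ k, N = k + 1 := ⟨N - 1, by omega⟩
  obtain ⟨P0, hP0⟩ : ∃ P0 : ℝ, P0 = ∏ v ∈ D.S0, (1 - (nm v : ℝ)⁻¹) := ⟨_, rfl⟩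
  have hP0pos : 0 < P0 := by
    rw [hP0]
    exact bue_prod_pos _
  have hfac : (0 : ℝ) < (k.factorial : ℝ) := Nat.cast_pos.2 (Nat.factorial_pos k)
  obtain ⟨a, ha⟩ : ∃ a : ℝ, a = (κ * (P0 * cm)) ^ (k + 1) / (k.factorial : ℝ) := ⟨_, rfl⟩
  have ha0 : 0 < a := by rw [ha]; positivity
  obtain ⟨T, hT3, hT⟩ := bue_small_T C (3 * ((k + 1 : ℕ) : ℝ)) (a / 2) (by positivity)
  have hT0 : 0 < T := by linarith
  have hlT : 0 < Real.log T := Real.log_pos (by linarith)
  obtain ⟨G, hG⟩ : ∃ G : Finset (Pl K), G = (acntb_fin K T).toFinset := ⟨_, rfl⟩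
  have hGm : ∀ v, v ∈ G ↔ (nm v : ℝ) ≤ T := by
    intro v
    rw [hG, Set.Finite.mem_toFinset]
    rfl
  obtain ⟨F, hF⟩ : ∃ F : Finset (Pl K), F = D.S0 ∪ G := ⟨_, rfl⟩
  have hunF := hun T (by linarith) F
    (fun v hv => by rw [hF, Finset.mem_union]; exact Or.inl hv)
    (fun v hv => by rw [hF, Finset.mem_union]; exact Or.inr ((hGm v).2 hv))
  have hprod : P0 * (cm * Real.log T ^ (-3 : ℝ)) ≤ ∏ v ∈ F, (1 - (nm v : ℝ)⁻¹) := by
    rw [hF]
    refine le_trans ?_ (bue_union _ _)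
    rw [← hP0]
    apply mul_le_mul_of_nonneg_left _ hP0pos.le
    exact hmert T hT3 G fun v hv => (hGm v).1 hv
  obtain ⟨τ, hτ⟩ : ∃ τ : ℝ, τ = (κ * ∏ v ∈ F, (1 - (nm v : ℝ)⁻¹)) ^ (k + 1) / (k.factorial : ℝ) :=
    ⟨_, rfl⟩
  have hlim := ti_val K F _ (hac F) k
  rw [← hτ] at hlim
  have hτa : a * Real.log T ^ (-(3 * ((k + 1 : ℕ) : ℝ))) ≤ τ := by
    have e1 : a * Real.log T ^ (-(3 * ((k + 1 : ℕ) : ℝ))) =
        (κ * (P0 * (cm * Real.log T ^ (-3 : ℝ)))) ^ (k + 1) / (k.factorial : ℝ) := by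
      have e2 : Real.log T ^ (-(3 * ((k + 1 : ℕ) : ℝ))) = (Real.log T ^ (-3 : ℝ)) ^ (k + 1) := by
        rw [← Real.rpow_mul_natCast hlT.le]
        congr 1
        push_cast
        ring
      rw [ha, e2]
      ring
    rw [e1, hτ]
    apply div_le_div_of_nonneg_right _ hfac.le
    exact pow_le_pow_left₀ (by positivity) (mul_le_mul_of_nonneg_left hprod hκ.le) _
  have hCT : C * T ^ (-(1 / 4) : ℝ) ≤ τ / 2 := by
    have h1 : C * T ^ (-(1 / 4) : ℝ) =
        (C * T ^ (-(1 / 4) : ℝ) * Real.log T ^ (3 * ((k + 1 : ℕ) : ℝ))) *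
          Real.log T ^ (-(3 * ((k + 1 : ℕ) : ℝ))) := by
      rw [mul_assoc, ← Real.rpow_add hlT, add_neg_cancel, Real.rpow_zero, mul_one]
    rw [h1]
    calc _ ≤ a / 2 * Real.log T ^ (-(3 * ((k + 1 : ℕ) : ℝ))) :=
          mul_le_mul_of_nonneg_right hT (Real.rpow_nonneg hlT.le _)
      _ = (a * Real.log T ^ (-(3 * ((k + 1 : ℕ) : ℝ)))) / 2 := by ring
      _ ≤ τ / 2 := by linarith
  have hτ0 : 0 < τ := lt_of_lt_of_le (by positivity) hτa
  have hlog : Tendsto (fun y : ℝ => (1 + Real.log y) / Real.log y) atTop (𝓝 1) := by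
    have h1 : Tendsto (fun y : ℝ => 1 / Real.log y + 1) atTop (𝓝 (0 + 1)) :=
      (Real.tendsto_log_atTop.const_div_atTop 1).add_const 1
    rw [zero_add] at h1
    refine h1.congr' ?_
    filter_upwards [eventually_gt_atTop 1] with y hy
    have := Real.log_pos hy
    field_simp
  have hl2 : Tendsto (fun y : ℝ => TI K F (k + 1) y / (y * Real.log y ^ k) -
      C * T ^ (-(1 / 4) : ℝ) * ((1 + Real.log y) / Real.log y) ^ k) atTop
      (𝓝 (τ - C * T ^ (-(1 / 4) : ℝ) * 1 ^ k)) :=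
    hlim.sub ((hlog.pow k).const_mul _)
  rw [one_pow, mul_one] at hl2
  have hle : τ - C * T ^ (-(1 / 4) : ℝ) ≤ u := by
    refine le_of_tendsto_of_tendsto hl2 hu ?_
    filter_upwards [eventually_gt_atTop 1] with y hy
    have hy0 : 0 < y := by linarith
    have hl := Real.log_pos hy
    have h1 := hunF y hy.le
    have h2 := un_mono D (k + 1) F y
    rw [abs_le] at h1
    rw [Nat.add_sub_cancel] at h1
    have hden : 0 < y * Real.log y ^ k := by positivity
    have h3 : TI K F (k + 1) y / (y * Real.log y ^ k) -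
        C * T ^ (-(1 / 4) : ℝ) * ((1 + Real.log y) / Real.log y) ^ k =
        (TI K F (k + 1) y - C * T ^ (-(1 / 4) : ℝ) * y * (1 + Real.log y) ^ k) /
          (y * Real.log y ^ k) := by
      rw [div_pow]
      field_simp
    rw [h3]
    simp only [Nat.add_sub_cancel]
    exact div_le_div_of_nonneg_right (by linarith [h1.1]) hden.le
  linarith

end H55.APE
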